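import Pool.Agent.Lib.MP_83608f_co.AV.Fin
import Pool.Agent.Lib.MP_83608f_co.AV.SH.SEC4
import Pool.Agent.Lib.MP_83608f_co.AV.SH.WIN
import Pool.Agent.Lib.MP_83608f_co.AV.SH.FIN

section
/-! # MP_83608f_co, part AV: the macro geometry with explicit constants (helper91; the proofs are those of helper3) -/
set_option autoImplicit false

open Classical

noncomputable section

namespace Pool.Agent.Lib.MP_83608f_co.AV.QMac

/-- **positions, final form**, with an explicit bound for `m` -/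
theorem pos_ex (c h : ℕ) (hh : 1 ≤ h) {V : Type} [Fintype V] {m : ℕ} {κ : ℝ} {d : V → V → ℕ}
    (hm : 8 * h * ((16 * (17 * c + 12) * (16 * h) ^ 3 + 2 * c + 2) + 2) ≤ m) (Q : QM m κ c d) (hne : Nonempty V) :
    ∃ P : V → ℤ, (∀ u, 0 ≤ P u) ∧ (∀ u, P u ≤ m + (2 * c + 1)) ∧
      (∀ t : ℕ, t + m / h ≤ m → ∃ u, (t : ℤ) ≤ P u ∧ P u ≤ t + (m / h : ℕ)) ∧
      (∀ u w, ∀ D : ℤ, (D = P w - P u ∨ D = P w - P u + m) → ((m / h : ℕ) : ℤ) ≤ D → D ≤ m - (m / h : ℕ) →
        (d u w : ℤ) ≤ D + (m / h : ℕ)) ∧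
      ∀ u w, u ≠ w → ∃ j : ℤ, -1 ≤ j ∧ j ≤ 1 ∧ -((m / h : ℕ) : ℤ) ≤ P w - P u + m * j ∧
        P w - P u + m * j ≤ d u w + (m / h : ℕ) := by
  obtain ⟨A, hA⟩ : ∃ A, A = 16 * (17 * c + 12) * (16 * h) ^ 3 + 2 * c + 2 := ⟨_, rfl⟩
  rw [← hA] at hm
  obtain ⟨v₀⟩ := hne
  obtain ⟨Y, hY⟩ : ∃ Y, Y = m / (8 * h) := ⟨_, rfl⟩
  have h1 : 8 * Y ≤ m / h := by
    rw [hY, mul_comm 8 h, ← Nat.div_div_eq_div_mul]
    exact Nat.mul_div_le _ _
  have h2 : m / h ≤ m := Nat.div_le_self _ _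
  have h3 : A + 2 ≤ Y := by
    rw [hY, Nat.le_div_iff_mul_le (by omega)]
    calc (A + 2) * (8 * h) = 8 * h * (A + 2) := by ring
      _ ≤ m := hm
  have h4 : m < 8 * h * (Y + 1) := by
    rw [hY]
    exact Nat.lt_mul_div_succ m (by omega)
  have h5 : m ≤ 16 * h * Y := by
    have : 8 * h * (Y + 1) ≤ 8 * h * (Y + Y) := Nat.mul_le_mul_left _ (by omega)
    calc m ≤ 8 * h * (Y + Y) := by omega
      _ = 16 * h * Y := by ring
  obtain ⟨P, hP0, hP1, hPs, hP⟩ := Q.pos_star v₀ Y (16 * h) (by omega) h5 (by rw [← hA]; omega)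
  obtain ⟨η, hη⟩ : ∃ η, η = m / h := ⟨_, rfl⟩
  rw [← hη] at h1 h2 ⊢
  have h6 : 2 * c + 2 ≤ η := by omega
  have hP' : ∀ u w, ∀ D : ℤ, (D = P w - P u ∨ D = P w - P u + m) → (η : ℤ) ≤ D → D ≤ m - η →
      (d u w : ℤ) ≤ D + η := by
    intro u w D hD h7 h8
    have := hP u w D hD (by omega) (by omega)
    omega
  refine ⟨P, hP0, hP1, fun t ht => ?_, hP', fun u w huw => ?_⟩
  · obtain ⟨u, h7, h8⟩ := hPs t (by omega)
    exact ⟨u, h7, by omega⟩
  have g := Q.girth u w huw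
  have p1 := hP0 u
  have p2 := hP0 w
  have p3 := hP1 u
  have p4 := hP1 w
  obtain ⟨D, hD⟩ : ∃ D, D = P w - P u := ⟨_, rfl⟩
  rw [← hD]
  by_cases c1 : D < -η
  · -- `w` is behind: go round once
    have := hP' w u (-D) (Or.inl (by omega)) (by omega)
    by_cases c2 : -D ≤ m - η
    · have := this c2
      exact ⟨1, by omega, by omega, by omega, by omega⟩
    · exact ⟨1, by omega, by omega, by omega, by omega⟩
  · by_cases c2 : D ≤ d u w + η
    · exact ⟨0, by omega, by omega, by omega, by omega⟩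
    · -- `D` is large: the way back is short
      have := hP' w u (m - D) (Or.inr (by omega))
      by_cases c3 : (η : ℤ) ≤ m - D
      · have := this c3 (by omega)
        omega
      · exact ⟨-1, by omega, by omega, by omega, by omega⟩


end Pool.Agent.Lib.MP_83608f_co.AV.QMac

namespace Pool.Agent.Lib.MP_83608f_co.AV

open Pool.Agent.Lib.MP_83608f_co.CN
open LAY_ (cb)

namespace Mac_

variable {V : Type} [Fintype V] {A : V → V → Prop} {m dp dm : ℕ}

/-- the macro geometry, with an explicit bound for `m` -/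
theorem mac_ex (h : ℕ) (hh : 32 ≤ h)
    (hm : 8 * h * ((16 * (17 * 94 + 12) * (16 * h) ^ 3 + 2 * 94 + 2) + 2) + 5000 + 200 * h ≤ m) (hcl : NoCl A m)
    (ho : ∀ v, dp ≤ (Finset.univ.filter fun u => A v u).card)
    (hi : ∀ v, dm ≤ (Finset.univ.filter fun u => A u v).card) (hn : 2 * Fintype.card V ≤ m * (dp + dm))
    (hK : 1 ≤ dp + dm) (hne : Nonempty V) (hconn : ∀ x y, Relation.ReflTransGen A x y) :
    ∃ (φ : V → V → ℤ) (P : V → ℤ), Mac A φ m (m / h) P := by
  obtain ⟨M0, hM0⟩ : ∃ M0, M0 = 8 * h * ((16 * (17 * 94 + 12) * (16 * h) ^ 3 + 2 * 94 + 2) + 2) := ⟨_, rfl⟩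
  rw [← hM0] at hm
  have Q := qm hconn (by omega) hcl ho hi hn hK
  obtain ⟨P, hP0, hP1, hPs, hP, hJ⟩ := QMac.pos_ex 94 h (by omega) (by rw [← hM0]; omega) Q hne
  obtain ⟨η, hη⟩ : ∃ η, η = m / h := ⟨_, rfl⟩
  rw [← hη] at hPs hP hJ ⊢
  have hη1 : 200 ≤ η := by
    rw [hη, Nat.le_div_iff_mul_le (by omega)]
    omega
  have hη2 : 32 * η ≤ m := by
    calc 32 * η ≤ h * η := Nat.mul_le_mul_right _ hh
      _ ≤ m := by rw [hη]; exact Nat.mul_div_le _ _
  choose j hj1 hj2 hj3 hj4 using hJ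
  have hirr : ∀ x, ¬ A x x := fun x hx => by
    have := nocl_wk (φ := fun _ _ => 0) hcl (Wk.one hx) le_rfl
    omega
  obtain ⟨φ, hφ⟩ : ∃ φ : V → V → ℤ, φ = fun x y => if hxy : x ≠ y then j x y hxy else 0 := ⟨_, rfl⟩
  have main : ∀ x y L W, Wk A φ x y L W → 2 * L ≤ m → -(η : ℤ) ≤ P y - P x + m * W ∧
      P y - P x + m * W ≤ L + η := by
    intro x y L W hw
    induction hw with
    | nil =>
      intro _
      rw [mul_zero]
      omega
    | @snoc y z L W hw ha ih =>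
      intro hL
      obtain ⟨ih1, ih2⟩ := ih (by omega)
      have hyz : y ≠ z := fun h => hirr z (h ▸ ha)
      have hxz : x ≠ z := fun h => by
        subst h
        have := nocl_wk hcl (hw.snoc ha) (by omega)
        omega
      have d1 : dst A y z ≤ 1 := (mem_cb_iff hconn).1 (wk_cb (φ := φ) (Wk.one ha))
      have d2 : dst A x z ≤ L + 1 := (mem_cb_iff hconn).1 (wk_cb (hw.snoc ha))
      have a1 := hj3 y z hyz
      have a2 := hj4 y z hyz
      have b1 := hj3 x z hxz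
      have b2 := hj4 x z hxz
      have e1 : φ y z = j y z hyz := by rw [hφ]; simp only [dif_pos hyz]
      rw [e1, mul_add]
      have key : W + j y z hyz = j x z hxz := by
        apply eq_of_mul (m := m) <;> rw [mul_add] <;> omega
      rw [← mul_add, key]
      push_cast at *
      omega
  refine ⟨φ, P, hP0, fun u => (hP1 u).trans (by omega), fun x y L W h1 h2 => (main x y L W h1 h2).1,
    fun x y L W h1 h2 => (main x y L W h1 h2).2, ?_, hPs⟩
  intro x y W h1 h2
  have p1 := hP0 x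
  have p2 := hP0 y
  have p3 := hP1 x
  have p4 := hP1 y
  have hW0 : 0 ≤ W := by
    by_contra hW
    have : (m : ℤ) * W ≤ m * (-1) := mul_le_mul_of_nonneg_left (by omega) (Int.natCast_nonneg m)
    omega
  have hW1 : W ≤ 1 := by
    by_contra hW
    have : (m : ℤ) * 2 ≤ m * W := mul_le_mul_of_nonneg_left (by omega) (Int.natCast_nonneg m)
    omega
  have hd : (dst A x y : ℤ) ≤ P y - P x + m * W + η := by
    refine hP x y _ ?_ h1 (by omega)
    rcases (by omega : W = 0 ∨ W = 1) with h | h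
    · left
      rw [h]
      ring
    · right
      rw [h]
      ring
  obtain ⟨L, W', hL, hw⟩ := cb_wk φ (mem_dst hconn x y)
  have hLm : 2 * L ≤ m := by omega
  obtain ⟨g1, g2⟩ := main x y L W' hw hLm
  have : W' = W := by
    apply eq_of_mul (m := m) <;> omega
  subst this
  exact ⟨L, by omega, hw⟩


end Mac_

end Pool.Agent.Lib.MP_83608f_co.AV

namespace Pool.Agent.Lib.MP_83608f_co.AV.S

open Pool.Agent.Lib.MP_83608f_co.CN
open LAY_ (cb)

/-- `SpecMAC` with an explicit bound -/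
theorem mac_loc (N h : ℕ) (hh : h = 9 * N + 32) {V : Type} [Fintype V] [Nonempty V] {A : V → V → Prop} {m dp dm : ℕ}
    (hm : 8 * h * ((16 * (17 * 94 + 12) * (16 * h) ^ 3 + 2 * 94 + 2) + 2) + 10000 + 210 * h ≤ m) (hcl : NoCl A m)
    (ho : ∀ v, dp ≤ (Finset.univ.filter fun u => A v u).card)
    (hi : ∀ v, dm ≤ (Finset.univ.filter fun u => A u v).card) (hK : 1 ≤ dp + dm)
    (hn : 2 * Fintype.card V ≤ m * (dp + dm)) :
    ∃ (φ : V → V → ℤ) (η : ℕ), N * η ≤ m ∧ (∃ x L W, Wk A φ x x L W ∧ 0 < W) ∧ ∀ P : Pot A φ, Loc P m η := by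
  have hconn := MAC_.conn (by omega) hcl ho hi hK hn
  obtain ⟨φ, P, M⟩ := Mac_.mac_ex h (by omega) (by omega) hcl ho hi hn hK inferInstance hconn
  obtain ⟨η, hη⟩ : ∃ η, η = m / h := ⟨_, rfl⟩
  rw [← hη] at M
  have h1 : 10 ≤ η := by
    rw [hη, Nat.le_div_iff_mul_le (by omega)]
    omega
  have h2 : h * η ≤ m := by rw [hη]; exact Nat.mul_div_le _ _
  have h3 : m < h * (η + 1) := by rw [hη]; exact Nat.lt_mul_div_succ m (by omega)
  have h4 : 32 * η ≤ m := (Nat.mul_le_mul_right _ (by omega)).trans h2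
  refine ⟨φ, 9 * η, ?_, M.exists_pos_wind h4 (by omega), fun T => ⟨⟨?_, ?_, ?_⟩, by omega⟩⟩
  · calc N * (9 * η) = 9 * N * η := by ring
      _ ≤ h * η := Nat.mul_le_mul_right _ (by omega)
      _ ≤ m := h2
  · intro x y L W hw hL
    have h5 := M.drop h4 (by omega) T hw (by omega)
    have h6 : (T.p : ℤ) * (4 * η) ≤ T.p * (9 * η) := mul_le_mul_of_nonneg_left (by omega) (Int.natCast_nonneg _)
    push_cast
    linarith
  · have h5 := M.p_le h (by rw [mul_comm]; exact h2) (by omega) T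
    have h6 := M.q_le h4 (by omega) T
    have h7 : 3 * (m + 9 * η) ≤ h * (9 * η) := by
      have h8 : 32 * η ≤ h * η := Nat.mul_le_mul_right _ (by omega)
      have h9 : h * 10 ≤ h * η := Nat.mul_le_mul_left _ h1
      have e1 : h * (9 * η) = 9 * (h * η) := by ring
      have e2 : h * (η + 1) = h * η + h := by ring
      rw [e1]
      rw [e2] at h3
      omega
    have h8 : h * (T.p * m) ≤ h * (T.q + T.p * (9 * η)) := by
      calc h * (T.p * m) = h * (m * T.p) := by ring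
        _ ≤ (h + 3) * T.q := h5
        _ = h * T.q + 3 * T.q := by ring
        _ ≤ h * T.q + 3 * (T.p * (m + 9 * η)) := by omega
        _ = h * T.q + T.p * (3 * (m + 9 * η)) := by ring
        _ ≤ h * T.q + T.p * (h * (9 * η)) := by
          have := Nat.mul_le_mul_left T.p h7
          omega
        _ = h * (T.q + T.p * (9 * η)) := by ring
    exact Nat.le_of_mul_le_mul_left h8 (by omega)
  · exact M.q_le h4 (by omega) T


end Pool.Agent.Lib.MP_83608f_co.AV.S
end
end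

section
/-! # MP_83608f_co, part AV: the theorem for all girths `g ≥ 10 ^ 43`, by the short route (helper91) -/
set_option autoImplicit false

open Classical

noncomputable section

namespace Pool.Agent.Lib.MP_83608f_co.AV.SH

open Pool.Agent.Lib.MP_83608f_co.CN

theorem shT : SpecSHT :=
  specSHT (specWIN specBAS) (specSEC4 specBAS specLMK) (specLOC5 specBAS specLMK) (specSUM5 specBAS)

/-- the average form for all `m ≥ 10 ^ 43 - 1` -/
theorem avm (m : ℕ) (hm : 10 ^ 43 ≤ m + 1) : AVm m := by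
  have key : ∀ (V : Type) [Fintype V] (A : V → V → Prop) (dp dm : ℕ), dm ≤ dp → ¬ Vio A m dp dm := by
    intro V _ A dp dm hle hV
    have : Nonempty V := Fintype.card_pos_iff.1 hV.hne
    obtain ⟨φ, η, hη, hpos, hloc⟩ := S.mac_loc 28000000 252000032 (by norm_num) (m := m)
      ((by norm_num : 8 * 252000032 * ((16 * (17 * 94 + 12) * (16 * 252000032) ^ 3 + 2 * 94 + 2) + 2) + 10000 +
        210 * 252000032 + 1 ≤ 10 ^ 43).trans hm |> Nat.le_of_succ_le_succ) hV.hcl hV.hout hV.hin hV.hK hV.hn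
    obtain ⟨P⟩ := exists_pot (A := A) (φ := φ) (conn hV) hpos
    exact FIN_.no_vio shT specLML hV P (hloc P) hη hle
  refine av_of_noVio ?_ ?_
  · have : 91 + 1 ≤ 10 ^ 43 := by norm_num
    omega
  · intro V _ A dp dm hV
    rcases Nat.le_total dm dp with h | h
    · exact key V A dp dm h hV
    · exact key V _ dm dp h (FIN_.vio_rev hV)

/-- **explicit form**: girth `g ≥ 10 ^ 43`, minimum out-degree `r`, minimum in-degree `s` -/
theorem bcw_explicit (V : Type) [Finite V] [Nonempty V] (G : Digraph V) (r s g : ℕ) (hg : 10 ^ 43 ≤ g)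
    (hout : ∀ v, r ≤ Nat.card {u // G.Adj v u}) (hin : ∀ v, s ≤ Nat.card {u // G.Adj u v}) (hgirth : EM.GirthGe G g) :
    (g - 1) * (r + s) < 2 * Nat.card V := by
  have := Fintype.ofFinite V
  obtain ⟨m, rfl⟩ : ∃ m, g = m + 1 := ⟨g - 1, by omega⟩
  rw [Nat.card_eq_fintype_card, Nat.add_sub_cancel]
  exact avm m hg V G.Adj r s Fintype.card_pos (Top_.noCl hgirth) (S.Fin_.out_card hout) (S.Fin_.in_card hin)

end Pool.Agent.Lib.MP_83608f_co.AV.SH
end
end
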